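import Pool.Agent.Helper223.CP.Conj
import Pool.Agent.Helper223.CP.Fixed

/-!
# The class P conjecture is false

`φ : a ↦ aba, b ↦ cac, c ↦ abacac` is primitive with a palindromic fixed point `u`, and the only
morphism of class P' having a fixed point with the same language is the identity.
-/

namespace Pool.Agent.Results.MP_caf222_co.Counterexample

open Pool.Helper223.CP Pool.Helper223.CP.J19 Pool.Helper223.CP.J20 Pool.Helper223.CP.J21
  Pool.Helper223.CP.Fin1

/-- The class P conjecture is false: there are a primitive morphism `φ` over three letters and a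
palindromic fixed point `u` of `φ` such that the identity is the only morphism of class P' having
a fixed point with the language of `u`; in particular no primitive morphism of class P' has such
a fixed point. Moreover the identity is the only morphism of class P' with some nonempty letter
image that maps the language of `u` into itself. -/
theorem result : ∃ (φ : Fin 3 → List (Fin 3)) (u : ℕ → Fin 3),
    IsPrimitive φ ∧ IsFixedPoint φ u ∧ IsPalindromic u ∧
    (∀ ψ : Fin 3 → List (Fin 3), ClassP' ψ → ∀ v : ℕ → Fin 3, IsFixedPoint ψ v →
      language v = language u → ψ = fun a => [a]) ∧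
    (∀ ψ : Fin 3 → List (Fin 3), ClassP' ψ → IsPrimitive ψ → ∀ v : ℕ → Fin 3,
      IsFixedPoint ψ v → language v ≠ language u) ∧
    (∀ ψ : Fin 3 → List (Fin 3), ClassP' ψ → (∀ w ∈ language u, ap ψ w ∈ language u) →
      (∃ a, ψ a ≠ []) → ψ = fun a => [a]) := by
  obtain ⟨u, hu, hlu⟩ := exists_fixed phi 0 [1, 0] rfl (by simp) (by
    intro b; fin_cases b <;> simp [phi])
  have hl : ∀ w, w ∈ language u ↔ LX w := fun w => (hlu w).trans (phi_lang w)
  have key : ∀ ψ : Fin 3 → List (Fin 3), ClassP' ψ → ∀ v : ℕ → Fin 3, IsFixedPoint ψ v →
      language v = language u → ∀ a, ψ a = [a] := by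
    intro ψ hψ v hv hvu
    obtain ⟨h1, h2⟩ := lang_of_fixed hv (fun w => by rw [hvu]; exact hl w)
    exact classP'_id hψ h1 h2
  refine ⟨phi, u, phi_primitive, hu, ?_, fun ψ hψ v hv hvu => funext (key ψ hψ v hv hvu),
    ?_, ?_⟩
  · have : {w | w ∈ language u ∧ IsPalindrome w} = {w | LX w ∧ IsPalindrome w} := by
      ext w
      exact and_congr_left fun _ => hl w
    unfold IsPalindromic
    rw [this]
    exact LX_palindromes
  · intro ψ hψ hprim v hv hvu
    have h := key ψ hψ v hv hvu
    obtain ⟨k, hk⟩ := hprim
    have h2 : ∀ k : ℕ, (ap ψ)^[k] [0] = [0] := by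
      intro k
      induction k with
      | zero => rfl
      | succ k ih => rw [Function.iterate_succ_apply', ih]; simp [h]
    have := hk 0 1
    rw [h2] at this
    simp at this
  · intro ψ hψ hL hne
    exact funext (classP'_id hψ (fun w hw => (hl _).1 (hL w ((hl w).2 hw))) hne)

end Pool.Agent.Results.MP_caf222_co.Counterexample
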